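import Pool.Agent.X249.AO.Fin

set_option autoImplicit false

/-!
# Log-rank conjecture for symmetric Boolean matrices of almost all orders

No structure of the symmetry group is used, only the sizes of its orbits on the rows.
-/

namespace Pool.Agent.Results.MP_e5d384_lc.AlmostAllOrders

/-- The real rank of the communication matrix of `F`. -/
noncomputable def rk {X Y : Type} [Fintype Y] (F : X → Y → Bool) : ℕ :=
  (Matrix.of (fun (x : X) (y : Y) => if F x y then (1 : ℝ) else 0)).rank

/-- `F` has a deterministic two-party protocol with at most `B` bits (as in the frozen statement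
S15531: `t` is the transcript so far, `owner t` says who speaks, exactly `c` bits are exchanged, the
answer is a function of the transcript). -/
def HasProtocol {X Y : Type} (F : X → Y → Bool) (B : ℝ) : Prop :=
  ∃ (c : ℕ) (owner : List Bool → Bool) (a : List Bool → X → Bool) (b : List Bool → Y → Bool)
    (out : List Bool → Bool),
    (∀ x y, out (Nat.iterate
      (fun t : List Bool => t ++ [if owner t then a t x else b t y]) c []) = F x y) ∧
    (c : ℝ) ≤ B

/-- `Γ` is a group of permutations of the rows, each of which can be completed by some permutation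
of the columns to a symmetry of the matrix of `F`. -/
def RowSymmetries {X Y : Type} (F : X → Y → Bool) (Γ : Subgroup (Equiv.Perm X)) : Prop :=
  ∀ σ ∈ Γ, ∃ τ : Equiv.Perm Y, ∀ x y, F (σ x) (τ y) = F x y

/-- The number of distinct rows of the matrix of `F`. -/
noncomputable def numRows {X Y : Type} (F : X → Y → Bool) : ℕ := Nat.card (Set.range F)

/-- The number of orbits of `Γ` on the rows. -/
noncomputable def numOrbits {X : Type} (Γ : Subgroup (Equiv.Perm X)) : ℕ :=
  Nat.card (MulAction.orbitRel.Quotient Γ X)

open Classical in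
/-- The number of elements of `E` in `[1, x]`. -/
noncomputable def count (E : Set ℕ) (x : ℕ) : ℕ :=
  ((Finset.Ioc 0 x).filter (fun n => n ∈ E)).card

/-- **Log-rank conjecture for symmetric Boolean matrices of almost all orders.**
For every `η > 0` there are a constant `C` and a set `E` of exceptional orders with at most `η x`
elements up to `x`, for all `x`, such that

(1) for every `F : X × Y → {0,1}` of rank `r` and every group `Γ` of row symmetries of `F` with `t`
orbits on `X`, none of which has its size in `E`, the number of distinct rows of `F` is at most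
`t 2 ^ (C (log₂ (r + 1)) ^ 2)` and `F` has a protocol with `log₂ t + C (log₂ (r + 1)) ^ 2 + 2` bits;

(2) if moreover the rows of `F` are distinct, then `|X| ≤ t (r + 1) ^ C` and
`log₂ t + C log₂ (r + 1) + 2` bits suffice;

(3) in particular, for every finite group `G` whose order is not in `E` and every `f : G → {0,1}`,
the function `f (x⁻¹ y)` has a protocol with `C (log₂ (r + 1)) ^ 2 + 2` bits.

(4) The reason: for every `F`, every group `Γ` of row symmetries and every orbit `O` of `Γ`, every
prime which divides the number of distinct rows in `O` is at most `r + 1`, and this number divides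
`|O|`. -/
theorem result :
    (∀ η : ℝ, 0 < η → ∃ (C : ℕ) (E : Set ℕ), (∀ x : ℕ, (count E x : ℝ) ≤ η * x) ∧
      (∀ (X Y : Type) [Fintype X] [Fintype Y] (F : X → Y → Bool) (Γ : Subgroup (Equiv.Perm X)),
        RowSymmetries F Γ → (∀ x : X, Nat.card (MulAction.orbit Γ x) ∉ E) →
        (Real.logb 2 (numRows F) ≤
            Real.logb 2 (numOrbits Γ) + C * (Real.logb 2 (rk F + 1)) ^ 2 ∧
          HasProtocol F (Real.logb 2 (numOrbits Γ) + C * (Real.logb 2 (rk F + 1)) ^ 2 + 2)) ∧
        (Function.Injective F →
          Real.logb 2 (Fintype.card X) ≤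
            Real.logb 2 (numOrbits Γ) + C * Real.logb 2 (rk F + 1) ∧
          HasProtocol F (Real.logb 2 (numOrbits Γ) + C * Real.logb 2 (rk F + 1) + 2))) ∧
      (∀ (G : Type) [Group G] [Fintype G], Nat.card G ∉ E → ∀ f : G → Bool,
        HasProtocol (fun x y : G => f (x⁻¹ * y))
          (C * (Real.logb 2 (rk (fun x y : G => f (x⁻¹ * y)) + 1)) ^ 2 + 2))) ∧
    (∀ (X Y : Type) [Fintype X] [Fintype Y] (F : X → Y → Bool) (Γ : Subgroup (Equiv.Perm X)),
      RowSymmetries F Γ → ∀ x : X,
        Nat.card (F '' (MulAction.orbit Γ x)) ∣ Nat.card (MulAction.orbit Γ x) ∧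
        ∀ p : ℕ, p.Prime → p ∣ Nat.card (F '' (MulAction.orbit Γ x)) → p ≤ rk F + 1) := by
  classical
  refine ⟨fun η hη => ?_, ?_⟩
  · obtain ⟨C, E, hE, h⟩ := Pool.Agent.X249.AO.final η hη
    refine ⟨C, E, fun x => hE x, ?_, ?_⟩
    · intro X Y _ _ F Γ hΓ horb
      obtain ⟨h1, h2⟩ := h X Y F Γ hΓ horb
      refine ⟨⟨?_, ?_⟩, fun hinj => ⟨?_, ?_⟩⟩
      · rw [numRows, ← Pool.Agent.X249.AO.card_range F]
        exact h1
      · obtain ⟨c, ⟨owner, a, b, out, hp⟩, hc⟩ := Pool.Agent.X249.AO.proto_le F _ h1
        exact ⟨c, owner, a, b, out, hp, hc⟩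
      · have h3 := h2 hinj
        rw [Pool.Agent.X249.AO.card_range F, Nat.card_congr (Equiv.ofInjective F hinj).symm,
          Nat.card_eq_fintype_card] at h3
        exact h3
      · obtain ⟨c, ⟨owner, a, b, out, hp⟩, hc⟩ := Pool.Agent.X249.AO.proto_le F _ (h2 hinj)
        exact ⟨c, owner, a, b, out, hp, hc⟩
    · intro G _ _ hG f
      obtain ⟨h1, -⟩ := h G G (fun x y : G => f (x⁻¹ * y)) (Pool.Agent.X249.AO.leftTr G)
        (Pool.Agent.X249.AO.leftTr_symm f)
        (fun x => by rw [Pool.Agent.X249.AO.leftTr_orbit]; exact hG)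
      rw [Pool.Agent.X249.AO.leftTr_quot, Nat.cast_one, Real.logb_one, zero_add] at h1
      obtain ⟨c, ⟨owner, a, b, out, hp⟩, hc⟩ := Pool.Agent.X249.AO.proto_le _ _ h1
      exact ⟨c, owner, a, b, out, hp, hc⟩
  · intro X Y _ _ F Γ hΓ x
    have e := Pool.Agent.X249.AO.card_image hΓ x
    rw [e]
    exact ⟨Pool.Agent.X249.AO.orbit_dvd hΓ x, fun p hp hd =>
      Pool.Agent.X249.AO.prime_orbit hΓ _ p hp hd⟩

end Pool.Agent.Results.MP_e5d384_lc.AlmostAllOrders
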