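import Pool.Agent.X18.Comm5

/-!
Communication complexity of real matrices with few entries per row, in terms of their rank.

For every `q` there is a constant `C` such that every nonzero real matrix `M` of rank `r` in which
every row has at most `q` different entries has a deterministic protocol with at most `C * r ^ (3/4)`
bits after which the transcript determines the index of the entry in the list of the row.
-/

set_option autoImplicit false

namespace Pool.Agent.Results.MP_e5d384_lc.FewValues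

open Pool.Agent.X18.Comm Pool.Agent.Helper433

/-- The real communication matrix of a Boolean function. -/
def comm {X Y : Type} (F : X → Y → Bool) : Matrix X Y ℝ :=
  Matrix.of fun x y => if F x y then 1 else 0

lemma rank_RK {X Y : Type} [Fintype X] [Fintype Y] (M : Matrix X Y ℝ) : RK M.rank (fun x y => M x y) := by
  have h := Matrix.rank_eq_finrank_span_row M
  refine RK_of_rows (Submodule.span ℝ (Set.range M.row)) h.symm.le fun x => ?_
  exact Submodule.subset_span ⟨x, rfl⟩

lemma rank_pos {X Y : Type} [Fintype X] [Fintype Y] (M : Matrix X Y ℝ) (hM : M ≠ 0) :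
    1 ≤ M.rank := by
  by_contra hcon
  have h0 : M.rank = 0 := by omega
  apply hM
  obtain ⟨c, φ, h⟩ := rank_RK M
  ext x y
  have : IsEmpty (Fin M.rank) := by
    rw [h0]
    infer_instance
  refine (h x y).trans ?_
  rw [Finset.univ_eq_empty, Finset.sum_empty]
  rfl

theorem result : ∀ q : ℕ, 0 < q → ∃ C : ℝ, 0 ≤ C ∧
    (∀ (X Y : Type) [Fintype X] [Fintype Y] (M : Matrix X Y ℝ) (ρ : X → Fin q → ℝ), M ≠ 0 →
      (∀ x y, ∃ j, M x y = ρ x j) →
      ∃ c : ℕ, (c : ℝ) ≤ C * (M.rank : ℝ) ^ (3 / 4 : ℝ) ∧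
        Solves (fun x y j => M x y = ρ x j) c) ∧
    (∀ (X Y Z : Type) [Fintype X] [Fintype Y] [Nonempty Z] (M : Matrix X Y ℝ) (F : X → Y → Z),
      (Set.range fun p : X × Y => M p.1 p.2).ncard ≤ q →
      (∀ x y x' y', M x y = M x' y' → F x y = F x' y') →
      ∃ c : ℕ, (c : ℝ) ≤ C * (M.rank : ℝ) ^ (3 / 4 : ℝ) ∧ Solves (fun x y z => z = F x y) c) ∧
    (2 ≤ q → ∀ κ : ℝ, 0 < κ → ∀ (X Y : Type) [Fintype X] [Fintype Y] (M : Matrix X Y ℝ)
      (F : X → Y → Bool),
      (Set.range fun p : X × Y => M p.1 p.2).ncard ≤ q →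
      (∀ x y x' y', M x y = M x' y' → F x y = F x' y') →
      κ * (M.rank : ℝ) ^ (q - 1) ≤ (comm F).rank →
      ∃ c : ℕ, (c : ℝ) ≤ C * ((comm F).rank / κ) ^ (3 / (4 * (q - 1)) : ℝ) ∧
        Solves (fun x y z => z = F x y) c) := by
  classical
  intro q hq
  obtain ⟨K, hK0, hK⟩ := lists q hq
  have part1 : ∀ (X Y : Type) [Fintype X] [Fintype Y] (M : Matrix X Y ℝ) (ρ : X → Fin q → ℝ),
      M ≠ 0 → (∀ x y, ∃ j, M x y = ρ x j) →
      ∃ c : ℕ, (c : ℝ) ≤ K * (M.rank : ℝ) ^ (3 / 4 : ℝ) ∧
        Solves (fun x y j => M x y = ρ x j) c := by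
    intro X Y _ _ M ρ hM hl
    exact hK M.rank (rank_pos M hM) X Y (fun x y => M x y) ρ (rank_RK M) hl
  have part2 : ∀ (X Y Z : Type) [Fintype X] [Fintype Y] [Nonempty Z] (M : Matrix X Y ℝ)
      (F : X → Y → Z), (Set.range fun p : X × Y => M p.1 p.2).ncard ≤ q →
      (∀ x y x' y', M x y = M x' y' → F x y = F x' y') →
      ∃ c : ℕ, (c : ℝ) ≤ K * (M.rank : ℝ) ^ (3 / 4 : ℝ) ∧
        Solves (fun x y z => z = F x y) c := by
    intro X Y Z _ _ _ M F hcard hF
    obtain ⟨z0⟩ := ‹Nonempty Z›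
    by_cases hM : M = 0
    · refine ⟨0, ?_, ?_⟩
      · push_cast
        positivity
      · rcases isEmpty_or_nonempty (X × Y) with he | ⟨⟨x0, y0⟩⟩
        · exact Solves.const z0 fun x y => he.elim (x, y)
        · exact Solves.const (F x0 y0) fun x y => hF _ _ _ _ (by rw [hM]; rfl)
    · -- a list of the entries
      have hne : Nonempty (X × Y) := by
        by_contra hcon
        rw [not_nonempty_iff] at hcon
        apply hM
        ext x y
        exact hcon.elim (x, y)
      obtain ⟨v, hv⟩ : ∃ v : Fin q → ℝ, ∀ x y, ∃ j, M x y = v j := by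
        set S := (Set.range fun p : X × Y => M p.1 p.2) with hS
        have hfin : S.Finite := Set.finite_range _
        obtain ⟨p0⟩ := hne
        let T := hfin.toFinset
        have hT : Fintype.card T ≤ Fintype.card (Fin q) := by
          rw [Fintype.card_coe, Fintype.card_fin, ← Set.ncard_eq_toFinset_card S hfin]
          exact hcard
        obtain ⟨e⟩ := Function.Embedding.nonempty_of_card_le hT
        refine ⟨fun j => if h : ∃ t, e t = j then (h.choose : ℝ) else 0, fun x y => ?_⟩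
        have hmem : M x y ∈ T := by
          rw [Set.Finite.mem_toFinset]
          exact ⟨(x, y), rfl⟩
        refine ⟨e ⟨M x y, hmem⟩, ?_⟩
        have hex : ∃ t, e t = e ⟨M x y, hmem⟩ := ⟨_, rfl⟩
        simp only [hex, dite_true]
        rw [e.injective hex.choose_spec]
      obtain ⟨c, hc, hs⟩ := part1 X Y M (fun _ => v) hM hv
      refine ⟨c, hc, ?_⟩
      refine hs.map (fun j => if h : ∃ p : X × Y, M p.1 p.2 = v j then F h.choose.1 h.choose.2
        else z0) ?_
      intro x y j hj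
      have hex : ∃ p : X × Y, M p.1 p.2 = v j := ⟨(x, y), hj⟩
      simp only [hex, dite_true]
      exact hF _ _ _ _ (hex.choose_spec.trans hj.symm)
  refine ⟨K, hK0, part1, part2, ?_⟩
  intro hq2 κ hκ X Y _ _ M F hcard hF hrank
  obtain ⟨c, hc, hs⟩ := part2 X Y Bool M F hcard hF
  refine ⟨c, hc.trans (mul_le_mul_of_nonneg_left ?_ hK0), hs⟩
  have h1 : (M.rank : ℝ) ^ (q - 1) ≤ (comm F).rank / κ := by
    rw [le_div_iff₀ hκ]
    linarith
  have hq1 : ((q - 1 : ℕ) : ℝ) = (q : ℝ) - 1 := by
    rw [Nat.cast_sub (by omega)]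
    simp
  have hq0 : (0 : ℝ) < (q : ℝ) - 1 := by
    have : (2 : ℝ) ≤ q := by exact_mod_cast hq2
    linarith
  have e : (M.rank : ℝ) ^ (3 / 4 : ℝ) =
      ((M.rank : ℝ) ^ (q - 1)) ^ (3 / (4 * (q - 1)) : ℝ) := by
    rw [← Real.rpow_natCast, hq1, ← Real.rpow_mul (Nat.cast_nonneg _)]
    congr 1
    field_simp
  rw [e]
  exact Real.rpow_le_rpow (by positivity) h1 (by positivity)

end Pool.Agent.Results.MP_e5d384_lc.FewValues
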