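import Pool.Agent.X224.LF.Main

set_option autoImplicit false

/-!
# The log-rank conjecture is equivalent to its restriction to spectrally flat graphs

The sign matrix of `F` has the entries `(-1) ^ F(x, y)`. Its rank is at most `r + 1`, `r` the rank
of the communication matrix, so its spectral norm is at least `2 ^ n / √(r + 1)`. It is proved
that the log-rank conjecture holds if it holds for the adjacency matrices of the simple graphs for
which the norm is almost as small as possible: at most `2 ^ n / √r` times `2 ^ ((log₂ r) ^ δ)`,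
for any fixed `δ > 0`. Such graphs are quasirandom with nearly optimal error: up to a factor
`r ^ o(1)` no graph of this rank has a more uniform distribution of the edges. The norm may also be
bounded by `2 ^ n / √r` times `r ^ ε`; then the exponent of the conjecture remains the same.

The definitions used in the statement (`rk`, `NormLe`, `Bound`, `IsGraph`, `Flat`) are in
`Pool/Agent/X224/LF/Core.lean` and `Pool/Agent/X224/LF/Main.lean`.

Proof. `F(x, y') + F(y, x')` is a symmetric function of `(x, x')` and `(y, y')` which vanishes on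
the diagonal. Adding the symplectic form on `F_2 ^ (2 m)` multiplies the rank of the sign matrix and
the norm by `4 ^ m` and `2 ^ m`, and protocols for the sum give protocols for `F`.
-/

namespace Pool.Agent.Results.MP_e5d384_lc.FlatGraphs

open Pool.Agent.X224.LF

/-- **The log-rank conjecture is equivalent to its restriction to flat graphs.** -/
theorem result :
    -- the conjecture (the frozen statement `S15531`) and its restriction to flat graphs
    (∀ δ : ℝ, 0 < δ → δ ≤ 1 →
      ((∃ C k : ℕ, ∀ (n : ℕ) (F : (Fin n → ZMod 2) → (Fin n → ZMod 2) → Bool), Bound C k F) ↔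
        ∃ C k : ℕ, ∀ (n : ℕ) (F : (Fin n → ZMod 2) → (Fin n → ZMod 2) → Bool),
          IsGraph F → Flat (2 ^ (Real.logb 2 (rk F : ℝ) ^ δ)) F → Bound C k F)) ∧
    -- the same with a fixed exponent `k`
    (∀ ε : ℝ, 0 < ε → ∀ k : ℕ,
      ((∃ C : ℕ, ∀ (n : ℕ) (F : (Fin n → ZMod 2) → (Fin n → ZMod 2) → Bool), Bound C k F) ↔
        ∃ C : ℕ, ∀ (n : ℕ) (F : (Fin n → ZMod 2) → (Fin n → ZMod 2) → Bool),
          IsGraph F → Flat ((rk F : ℝ) ^ ε) F → Bound C k F)) ∧
    -- no sign matrix has a smaller norm
    (∀ (n : ℕ) (F : (Fin n → ZMod 2) → (Fin n → ZMod 2) → Bool) (t : ℝ), NormLe F t →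
      2 ^ n / √((rk F : ℝ) + 1) ≤ t) := by
  refine ⟨fun δ h0 h1 => ⟨?_, ?_⟩, fun ε hε k => ⟨?_, ?_⟩, fun n F t h => ?_⟩
  · rintro ⟨C, k, h⟩
    exact ⟨C, k, fun n F _ _ => h n F⟩
  · rintro ⟨C, k, h⟩
    exact subpolynomial δ h0 h1 k C h
  · rintro ⟨C, h⟩
    exact ⟨C, fun n F _ _ => h n F⟩
  · rintro ⟨C, h⟩
    exact same_exponent ε hε k C h
  · have h1 := norm_ge h
    rw [Fintype.card_fun, ZMod.card, Fintype.card_fin] at h1
    push_cast at h1
    rw [div_le_iff₀ (Real.sqrt_pos.2 (by positivity)), mul_comm]
    exact h1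

end Pool.Agent.Results.MP_e5d384_lc.FlatGraphs
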