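import Pool.Agent.X246.RSH.Two

/-!
# Functions of small rank and large communication complexity are robustly universal

The log-rank conjecture for functions without a robustly shattered set of rows, or without a robust
copy of some matrix.
-/

set_option autoImplicit false

namespace Pool.Agent.Results.MP_e5d384_lc.RobustShattering

open Finset Pool.Agent.X246.RSH

/-- `DCC F c`: the function `F` has a deterministic two-party protocol with `c` bits. (Protocols as
in the frozen statement S15531: `t` is the transcript so far, `owner t` says who speaks, and the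
answer is a function of the transcript.) -/
def DCC {X Y : Type} (F : X → Y → Bool) (c : ℕ) : Prop :=
  ∃ (owner : List Bool → Bool) (a : List Bool → X → Bool) (b : List Bool → Y → Bool)
    (out : List Bool → Bool), ∀ x y,
      out (Nat.iterate (fun t : List Bool => t ++ [if owner t then a t x else b t y]) c []) = F x y

/-- `F` restricted to the rows in `A` and the columns in `B` -/
def restrict {X Y : Type} (F : X → Y → Bool) (A : Set X) (B : Set Y) : A → B → Bool :=
  fun x y => F x y

/-- the rank over the field `K` of the communication matrix of `F` -/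
noncomputable def rk (K : Type) [Field K] {X Y : Type} [Fintype Y] (F : X → Y → Bool) : ℕ :=
  (Matrix.of fun x y => if F x y then (1 : K) else 0).rank

/-- A copy of the `s × t` matrix `M` in `F` that is robust at level `d`: rows `x a` and columns
`y b` with `F (x a) (y b) = M a b` such that for every set `P` of the indices `a` the columns with
ones exactly in the rows `x a`, `a ∈ P`, among the rows `x a` give a function that has no
protocol with `d` bits, and the same for the rows. -/
def RobustCopy {X Y : Type} (F : X → Y → Bool) {s t : ℕ} (M : Fin s → Fin t → Bool) (d : ℕ) :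
    Prop :=
  ∃ (x : Fin s → X) (y : Fin t → Y), (∀ a b, F (x a) (y b) = M a b) ∧
    (∀ P : Set (Fin s), ¬ DCC (restrict F Set.univ {y' | ∀ a, F (x a) y' = true ↔ a ∈ P}) d) ∧
    (∀ P : Set (Fin t), ¬ DCC (restrict F {x' | ∀ b, F x' (y b) = true ↔ b ∈ P} Set.univ) d)

/-- Let `F : X × Y → {0,1}` with `X`, `Y` finite, and `K` a field (for the problem: `K = ℝ`).
(1) Let `rk F ≤ r`, `d ≥ 1`, and suppose that for every set `S` of `s` rows there is a subset `P`
such that `F` restricted to the columns having ones in the rows of `P` and zeros in the rows of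
`S \ P` has a protocol with `d` bits. Then `F` has one with `d + ⌈log₂ ∑_{i≤s} C(r,i)⌉` bits.
(2) Let `rk F ≤ 2^m + 2`, `s + t ≥ 1`, `d ≥ 4`, and suppose that some `s × t` matrix `M` has no
copy in `F` that is robust at level `d`. Then `F` has a protocol with `d + (s + t) m (m + 11) / 2`
bits. -/
theorem result (K : Type) [Field K] (X Y : Type) [Fintype X] [Fintype Y] (F : X → Y → Bool) :
    (∀ r s d : ℕ, rk K F ≤ r → 1 ≤ d →
      (∀ S : Finset X, S.card = s → ∃ P ⊆ S,
        DCC (restrict F Set.univ {y | ∀ v ∈ S, F v y = true ↔ v ∈ P}) d) →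
      DCC F (d + Nat.clog 2 (∑ i ∈ range (s + 1), r.choose i))) ∧
    (∀ m s t d : ℕ, rk K F ≤ 2 ^ m + 2 → 1 ≤ s + t → 4 ≤ d →
      (∃ M : Fin s → Fin t → Bool, ¬ RobustCopy F M d) →
      DCC F (d + (s + t) * (m * (m + 11) / 2))) := by
  classical
  have hrk : rk K F = crk K F := by
    unfold rk crk
    congr 1
    ext x y
    simp [ind]
  refine ⟨fun r s d hr hd h => ?_, fun m s t d hr hst hd h => ?_⟩
  · by_contra hcon
    obtain ⟨S, hS, hP⟩ := shatter_proto (K := K) F (hrk ▸ hr) s d hd hcon
    obtain ⟨P, hPS, hc⟩ := h S hS
    exact hP P hPS (Pool.Agent.H630R2.LR.Proto.comap hc (fun x => ⟨x, trivial⟩) id)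
  · by_contra hcon
    obtain ⟨M, hM⟩ := h
    obtain ⟨x, y, h1, h2, h3⟩ := robust_comm (K := K) m F (hrk ▸ hr) s t
      (fun a b => M a b = true) d hst hd hcon
    refine hM ⟨x, y, fun a b => Bool.eq_iff_iff.2 (h1 a b), fun P hc => h2 P ?_,
      fun P hc => h3 P ?_⟩
    · exact Pool.Agent.H630R2.LR.Proto.comap hc (fun x => ⟨x, trivial⟩) id
    · exact Pool.Agent.H630R2.LR.Proto.comap hc id (fun y => ⟨y, trivial⟩)

end Pool.Agent.Results.MP_e5d384_lc.RobustShattering
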